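import Pool.Agent.Zk25.AX.Res

/-!
# A theorem of Ax
-/

set_option autoImplicit false

namespace Pool.Agent.Zk25.AX

/-- the constants of a derivation -/
def cst {E : Type*} [Field E] (D : Derivation ℤ E E) : Subfield E where
  carrier := {x | D x = 0}
  mul_mem' := by
    intro a b ha hb
    simp only [Set.mem_ofPred_eq] at *
    rw [D.leibniz, ha, hb, smul_zero, smul_zero, add_zero]
  one_mem' := D.map_one_eq_zero
  add_mem' := by
    intro a b ha hb
    simp only [Set.mem_ofPred_eq] at *
    rw [map_add, ha, hb, add_zero]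
  zero_mem' := D.map_zero
  neg_mem' := by
    intro a ha
    simp only [Set.mem_ofPred_eq] at *
    rw [D.map_neg, ha, neg_zero]
  inv_mem' := by
    intro a ha
    simp only [Set.mem_ofPred_eq] at *
    rw [D.leibniz_inv, ha, smul_zero]

theorem mem_cst {E : Type*} [Field E] {D : Derivation ℤ E E} {x : E} : x ∈ cst D ↔ D x = 0 := Iff.rfl

/-- the derivation as a derivation over its constants -/
noncomputable def overC {E : Type*} [Field E] (D : Derivation ℤ E E) : Derivation (cst D) E E :=
  Derivation.mk' (LinearMap.mk (AddHom.mk D D.map_add) (by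
    intro c x
    show D ((c : E) * x) = (c : E) * D x
    have hc : D (c : E) = 0 := c.2
    rw [D.leibniz, hc, smul_zero, add_zero, smul_eq_mul])) (fun a b => D.leibniz a b)

theorem overC_apply {E : Type*} [Field E] (D : Derivation ℤ E E) (x : E) : overC D x = D x := rfl

/-- functionals which commute with the derivation: linear independence over the constants -/
theorem descent {E : Type*} [Field E] (D : Derivation ℤ E E) {m : ℕ} :
    ∀ ω : Fin m → (Derivation (cst D) E E → E),
      (∀ k D', ω k ⁅overC D, D'⁆ = D (ω k D')) → LinearIndependent (cst D) ω →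
      LinearIndependent E ω := by
  induction m with
  | zero => intro ω _ _; exact linearIndependent_empty_type
  | succ m ih =>
    intro ω hω hli
    rw [linearIndependent_finSucc] at hli ⊢
    obtain ⟨h1, h2⟩ := hli
    have h3 := ih (Fin.tail ω) (fun k D' => hω k.succ D') h1
    refine ⟨h3, fun h4 => h2 ?_⟩
    rw [Submodule.mem_span_range_iff_exists_fun] at h4
    obtain ⟨f, hf⟩ := h4
    have h5 : ∑ k, D (f k) • Fin.tail ω k = 0 := by
      funext D'
      have e1 : ω 0 ⁅overC D, D'⁆ = D (ω 0 D') := hω 0 D'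
      rw [← hf] at e1
      simp only [Finset.sum_apply, Pi.smul_apply, smul_eq_mul, map_sum, D.leibniz] at e1
      rw [Finset.sum_add_distrib] at e1
      have e2 : ∀ k, Fin.tail ω k ⁅overC D, D'⁆ = D (Fin.tail ω k D') := fun k => hω k.succ D'
      simp only [Finset.sum_apply, Pi.smul_apply, smul_eq_mul, Pi.zero_apply]
      have e3 : ∑ k, f k * Fin.tail ω k ⁅overC D, D'⁆ = ∑ k, f k * D (Fin.tail ω k D') :=
        Finset.sum_congr rfl fun k _ => by rw [e2]
      rw [e3] at e1
      have e4 : ∑ k, D (f k) * Fin.tail ω k D' = ∑ k, Fin.tail ω k D' * D (f k) :=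
        Finset.sum_congr rfl fun k _ => mul_comm _ _
      rw [e4]
      linear_combination -e1
    have h6 := Fintype.linearIndependent_iff.1 h3 _ h5
    rw [Submodule.mem_span_range_iff_exists_fun]
    exact ⟨fun k => ⟨f k, h6 k⟩, hf⟩

theorem wax {E : Type*} [Field E] [CharZero E] [IsAlgClosed E] (D : Derivation ℤ E E)
    {ι : Type*} [Fintype ι] (z : ι → E) (hz : ∀ i, z i ≠ 0) {r : ℕ} (τ : Fin r → E)
    (hτ : ∀ i, IsAlgebraic (IntermediateField.adjoin ℚ (Set.range τ)) (z i))
    (c : Fin (r + 1) → ι → cst D) (hc : LinearIndependent (cst D) c)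
    (hrel : ∀ k, ∑ i, (c k i : E) * (D (z i) / z i) = 0) :
    ∃ χ : ι → ℤ, χ ≠ 0 ∧ ∑ i, (χ i : E) * (D (z i) / z i) = 0 := by
  classical
  obtain ⟨Ω, hΩ⟩ : ∃ Ω : Fin (r + 1) → (Derivation (cst D) E E →ₗ[E] E),
      ∀ k D', Ω k D' = ∑ i, (c k i : E) * (D' (z i) / z i) := by
    refine ⟨fun k => LinearMap.mk (AddHom.mk (fun D' => ∑ i, (c k i : E) * (D' (z i) / z i)) ?_) ?_,
      fun k D' => rfl⟩
    · intro D₁ D₂
      rw [← Finset.sum_add_distrib]
      refine Finset.sum_congr rfl fun i _ => ?_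
      rw [Derivation.add_apply]
      ring
    · intro x D₁
      show ∑ i, (c k i : E) * ((x • D₁) (z i) / z i) = x * ∑ i, (c k i : E) * (D₁ (z i) / z i)
      rw [Finset.mul_sum]
      refine Finset.sum_congr rfl fun i _ => ?_
      rw [Derivation.smul_apply, smul_eq_mul]
      ring
  obtain ⟨e, he⟩ : ∃ e : Fin r → (Derivation (cst D) E E →ₗ[E] E), ∀ j D', e j D' = D' (τ j) := by
    refine ⟨fun j => LinearMap.mk (AddHom.mk (fun D' => D' (τ j)) ?_) ?_, fun j D' => rfl⟩
    · intro D₁ D₂
      rfl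
    · intro x D₁
      rfl
  have h1 : ∀ k, Ω k ∈ Submodule.span E (Set.range e) := by
    intro k
    refine mem_span_of_iInf_ker_le_ker ?_
    intro D' hD'
    rw [Submodule.mem_iInf] at hD'
    have h2 : ∀ j, D' (τ j) = 0 := fun j => by rw [← he]; exact hD' j
    have h3 : ∀ x : IntermediateField.adjoin ℚ (Set.range τ),
        D' (algebraMap (IntermediateField.adjoin ℚ (Set.range τ)) E x) = 0 := by
      rintro ⟨x, hx⟩
      show D' x = 0
      induction hx using IntermediateField.adjoin_induction with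
      | mem x hx =>
        obtain ⟨j, rfl⟩ := hx
        exact h2 j
      | algebraMap q =>
        have h4 : (algebraMap ℚ E q) = algebraMap (cst D) E (algebraMap ℚ (cst D) q) :=
          IsScalarTower.algebraMap_apply ℚ (cst D) E q
        rw [h4, D'.map_algebraMap]
      | add x y _ _ hx hy => rw [map_add, hx, hy, add_zero]
      | inv x _ hx => rw [D'.leibniz_inv, hx, smul_zero]
      | mul x y _ _ hx hy => rw [D'.leibniz, hx, hy, smul_zero, smul_zero, add_zero]
    rw [LinearMap.mem_ker, hΩ]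
    refine Finset.sum_eq_zero fun i _ => ?_
    rw [der_alg D' h3 (hτ i), zero_div, mul_zero]
  have h2 : ¬ LinearIndependent E (fun k => (⇑(Ω k) : Derivation (cst D) E E → E)) := by
    intro hli
    have h3 : LinearIndependent E Ω := by
      obtain ⟨L, hL⟩ : ∃ L : (Derivation (cst D) E E →ₗ[E] E) →ₗ[E] (Derivation (cst D) E E → E),
          ∀ f, L f = ⇑f := ⟨LinearMap.mk (AddHom.mk (fun f => ⇑f) (fun _ _ => rfl)) (fun _ _ => rfl),
            fun _ => rfl⟩
      refine LinearIndependent.of_comp L ?_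
      have h4 : (⇑L ∘ Ω) = fun k => (⇑(Ω k) : Derivation (cst D) E E → E) := by
        funext k
        exact hL _
      rw [h4]
      exact hli
    have h4 := linearIndependent_le_span' Ω h3 (Set.range e) (by
      rintro _ ⟨k, rfl⟩
      exact h1 k)
    rw [Cardinal.mk_fin] at h4
    have h5 : Fintype.card (Set.range e) ≤ r := by
      have := Fintype.card_range_le e
      simpa using this
    have h6 : (r + 1 : ℕ) ≤ Fintype.card (Set.range e) := by exact_mod_cast h4
    omega
  have h3 : ¬ LinearIndependent (cst D) (fun k => (⇑(Ω k) : Derivation (cst D) E E → E)) := by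
    intro hli
    refine h2 (descent D _ ?_ hli)
    intro k D'
    rw [hΩ, hΩ, map_sum]
    have e0 : D' (∑ i, (c k i : E) * (D (z i) / z i)) = 0 := by rw [hrel, map_zero]
    rw [map_sum] at e0
    have e1 : ∀ i, D ((c k i : E) * (D' (z i) / z i)) - (c k i : E) * (⁅overC D, D'⁆ (z i) / z i) =
        D' ((c k i : E) * (D (z i) / z i)) := by
      intro i
      have hz' := hz i
      have hci : D (c k i : E) = 0 := (c k i).2
      have hci' : D' (c k i : E) = 0 := D'.map_algebraMap (c k i)
      rw [Derivation.commutator_apply, overC_apply, overC_apply, D.leibniz, D'.leibniz, hci, hci',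
        D.leibniz_div, D'.leibniz_div]
      simp only [smul_eq_mul, mul_zero, add_zero]
      field_simp
      ring
    have e2 : ∑ i, D ((c k i : E) * (D' (z i) / z i)) -
        ∑ i, (c k i : E) * (⁅overC D, D'⁆ (z i) / z i) = 0 := by
      rw [← Finset.sum_sub_distrib, ← e0]
      exact Finset.sum_congr rfl fun i _ => e1 i
    exact (sub_eq_zero.1 e2).symm
  rw [Fintype.not_linearIndependent_iff] at h3
  obtain ⟨b, hb1, k₀, hb2⟩ := h3
  obtain ⟨β, hβ⟩ : ∃ β : ι → cst D, β = ∑ k, b k • c k := ⟨_, rfl⟩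
  have hβ0 : β ≠ 0 := by
    intro h0
    rw [hβ] at h0
    exact hb2 (Fintype.linearIndependent_iff.1 hc b h0 k₀)
  obtain ⟨i₀, hi₀⟩ := Function.ne_iff.1 hβ0
  have hβrel : ∀ D' : Derivation (cst D) E E,
      ∑ i, algebraMap (cst D) E (β i) * (D' (z i) / z i) = 0 := by
    intro D'
    have e1 := congrFun hb1 D'
    simp only [Finset.sum_apply, Pi.smul_apply, Pi.zero_apply] at e1
    rw [← e1]
    have e2 : ∀ i, algebraMap (cst D) E (β i) * (D' (z i) / z i) =
        ∑ k, (b k : E) * ((c k i : E) * (D' (z i) / z i)) := by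
      intro i
      rw [hβ, Finset.sum_apply, map_sum, Finset.sum_mul]
      refine Finset.sum_congr rfl fun k _ => ?_
      rw [Pi.smul_apply, smul_eq_mul, map_mul, mul_assoc]
      rfl
    rw [Finset.sum_congr rfl fun i _ => e2 i, Finset.sum_comm]
    refine Finset.sum_congr rfl fun k _ => ?_
    rw [hΩ, ← Finset.mul_sum]
    rfl
  obtain ⟨φ, hφ⟩ : ∃ φ : Module.Dual ℚ (cst D), φ (β i₀) ≠ 0 := by
    by_contra hcon
    push Not at hcon
    exact hi₀ ((Module.forall_dual_apply_eq_zero_iff ℚ _).1 hcon)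
  obtain ⟨M, hM⟩ : ∃ M : ℕ, M = ∏ i, (φ (β i)).den := ⟨_, rfl⟩
  have hM0 : M ≠ 0 := by
    rw [hM]
    exact Finset.prod_ne_zero_iff.2 fun i _ => (φ (β i)).den_ne_zero
  have hint : ∀ i, ∃ χ : ℤ, (χ : ℚ) = (M : ℚ) * φ (β i) := by
    intro i
    refine ⟨(∏ j ∈ Finset.univ.erase i, ((φ (β j)).den : ℤ)) * (φ (β i)).num, ?_⟩
    rw [hM, ← Finset.mul_prod_erase Finset.univ _ (Finset.mem_univ i)]
    push_cast
    have := Rat.mul_den_eq_num (φ (β i))
    rw [← this]
    ring
  choose χ hχ using hint
  refine ⟨χ, ?_, ?_⟩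
  · intro h0
    have e1 := hχ i₀
    rw [h0] at e1
    simp only [Pi.zero_apply, Int.cast_zero] at e1
    have e2 : (M : ℚ) * φ (β i₀) ≠ 0 := mul_ne_zero (by exact_mod_cast hM0) hφ
    exact e2 e1.symm
  · have h4 := rational_relation z hz β hβrel φ.toAddMonoidHom χ M hχ
    have h5 : D (∏ i, z i ^ χ i) = 0 := der_alg D (fun k : cst D => k.2) h4
    have h6 := ld_prod D Finset.univ (fun i => z i ^ χ i) (fun i _ => zpow_ne_zero _ (hz i))
    rw [h5, zero_div] at h6
    rw [h6]
    exact Finset.sum_congr rfl fun i _ => (ld_zpow D (hz i) _).symm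

end Pool.Agent.Zk25.AX
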