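import Mathlib

/-!
# Derivations of fields
-/

set_option autoImplicit false

namespace Pool.Agent.Zk25.AX

open Polynomial TensorProduct

/-- derivations extend to formally etale algebras -/
theorem extend_der {R S T : Type*} [CommRing R] [CommRing S] [CommRing T] [Algebra R S]
    [Algebra S T] [Algebra R T] [IsScalarTower R S T] [Algebra.FormallyEtale S T]
    (d : Derivation R S T) : ∃ D : Derivation R T T, ∀ s : S, D (algebraMap S T s) = d s := by
  refine ⟨((LinearMap.liftBaseChange T d.liftKaehlerDifferential).comp
    (KaehlerDifferential.tensorKaehlerEquivOfFormallyEtale R S T).symm.toLinearMap).compDer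
      (KaehlerDifferential.D R T), fun s => ?_⟩
  have h := KaehlerDifferential.tensorKaehlerEquivOfFormallyEtale_symm_D_algebraMap R S T s
  have h1 : (((LinearMap.liftBaseChange T d.liftKaehlerDifferential).comp
    (KaehlerDifferential.tensorKaehlerEquivOfFormallyEtale R S T).symm.toLinearMap).compDer
      (KaehlerDifferential.D R T)) (algebraMap S T s) =
      (LinearMap.liftBaseChange T d.liftKaehlerDifferential)
        ((KaehlerDifferential.tensorKaehlerEquivOfFormallyEtale R S T).symm
          (KaehlerDifferential.D R T (algebraMap S T s))) := rfl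
  rw [h1, h, LinearMap.liftBaseChange_tmul, one_smul, Derivation.liftKaehlerDifferential_comp_D]

/-- derivations extend to algebraic extensions -/
theorem extend_alg {F E : Type*} [Field F] [Field E] [Algebra F E] [CharZero F]
    [Algebra.IsAlgebraic F E] (d : Derivation ℤ F F) :
    ∃ D : Derivation ℤ E E, ∀ s : F, D (algebraMap F E s) = algebraMap F E (d s) := by
  have : Algebra.FormallyEtale F E := Algebra.FormallyEtale.of_isSeparable F E
  obtain ⟨D, hD⟩ := extend_der (R := ℤ) (S := F) (T := E)
    ((Algebra.linearMap F E).compDer d)
  exact ⟨D, hD⟩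

/-- a derivation which vanishes on a subfield vanishes on the elements which are algebraic over it -/
theorem der_alg {R K E : Type*} [CommRing R] [Field K] [Field E] [Algebra K E] [CharZero E]
    [Algebra R E] (D : Derivation R E E) (hD : ∀ k : K, D (algebraMap K E k) = 0) {u : E}
    (hu : IsAlgebraic K u) : D u = 0 := by
  have hD' : ∀ (k : K) (x : E), D (k • x) = k • D x := by
    intro k x
    rw [Algebra.smul_def, D.leibniz, hD, smul_zero, add_zero, smul_eq_mul, Algebra.smul_def]
  obtain ⟨D', hD''⟩ : ∃ D' : Derivation K E E, ∀ x, D' x = D x := by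
    refine ⟨Derivation.mk' { toFun := D, map_add' := D.map_add, map_smul' := hD' } ?_, fun x => rfl⟩
    intro a b
    exact D.leibniz a b
  rw [← hD'']
  have hint : IsIntegral K u := hu.isIntegral
  have h1 := Derivation.comp_aeval_eq u D' (minpoly K u)
  rw [minpoly.aeval, map_zero, smul_eq_mul] at h1
  have h2 : aeval u (derivative (minpoly K u)) ≠ 0 := by
    have : CharZero K := (algebraMap K E).charZero
    have h3 : (minpoly K u).Separable := (minpoly.irreducible hint).separable
    exact h3.aeval_derivative_ne_zero (minpoly.aeval K u)
  exact (mul_eq_zero.1 h1.symm).resolve_left h2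

/-- there is a derivation with a given constant subring and a given value at a variable -/
theorem exists_der {A E : Type*} [CommRing A] [IsDomain A] [Field E] [Algebra A E] [CharZero E]
    [Algebra A[X] E] [IsScalarTower A A[X] E] [FaithfulSMul A[X] E] [Algebra.IsAlgebraic A[X] E] :
    ∃ δ : Derivation A E E, ∀ p : A[X], δ (algebraMap A[X] E p) =
      algebraMap A[X] E (derivative p) := by
  let : Algebra (FractionRing A[X]) E := FractionRing.liftAlgebra A[X] E
  have : IsScalarTower A[X] (FractionRing A[X]) E := FractionRing.isScalarTower_liftAlgebra _ _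
  have : Algebra.IsAlgebraic (FractionRing A[X]) E :=
    Algebra.IsAlgebraic.extendScalars (R := A[X])
      (IsFractionRing.injective A[X] (FractionRing A[X]))
  have : CharZero (FractionRing A[X]) := (algebraMap (FractionRing A[X]) E).charZero
  have : Algebra.FormallyEtale (FractionRing A[X]) E :=
    Algebra.FormallyEtale.of_isSeparable (FractionRing A[X]) E
  have : Algebra.FormallyEtale A[X] (FractionRing A[X]) :=
    Algebra.FormallyEtale.of_isLocalization (nonZeroDivisors A[X])
  have : Algebra.FormallyEtale A[X] E :=
    Algebra.FormallyEtale.comp A[X] (FractionRing A[X]) E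
  obtain ⟨D, hD⟩ := extend_der (R := A) (S := A[X]) (T := E)
    ((Algebra.linearMap A[X] E).compDer (derivative' : Derivation A A[X] A[X]))
  exact ⟨D, hD⟩

end Pool.Agent.Zk25.AX
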