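import Pool.Agent.Zk25.AX.Res

/-!
# A derivation which does not vanish at a given transcendental element
-/

set_option autoImplicit false

namespace Pool.Agent.Zk25.AX

open Polynomial

theorem exists_der_one {K E : Type*} [Field K] [Field E] [Algebra K E] [CharZero E] (u : E)
    (hu : Transcendental K u) : ∃ D : Derivation ℤ E E, D u = 1 := by
  classical
  have h1 : AlgebraicIndepOn K id ({u} : Set E) := by
    have : AlgebraicIndependent K (fun i : ({u} : Set E) => (i : E)) := by
      rw [algebraicIndependent_singleton_iff (⟨u, rfl⟩ : ({u} : Set E))]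
      exact hu
    exact this
  obtain ⟨t, ht, hb⟩ := exists_isTranscendenceBasis_superset h1
  have hut : u ∈ t := ht rfl
  obtain ⟨s, hs⟩ : ∃ s : Set t, s = {x : t | (x : E) ≠ u} := ⟨_, rfl⟩
  let A : Subalgebra K E := Algebra.adjoin K ((fun x : t => (x : E)) '' s)
  have hA : Transcendental A u := by
    have := hb.1.transcendental_adjoin (s := s) (i := ⟨u, hut⟩) (by rw [hs]; simp)
    exact this
  let _ : Algebra A[X] E := (aeval u : A[X] →ₐ[A] E).toRingHom.toAlgebra
  have hmap : ∀ p : A[X], algebraMap A[X] E p = aeval u p := fun p => rfl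
  have : IsScalarTower A A[X] E := IsScalarTower.of_algebraMap_eq fun a => by
    rw [hmap]
    have : algebraMap A A[X] a = C a := rfl
    rw [this, aeval_C]
  have hinj : Function.Injective (algebraMap A[X] E) := transcendental_iff_injective.1 hA
  have : FaithfulSMul A[X] E := (faithfulSMul_iff_algebraMap_injective _ _).2 hinj
  have hle : ∀ a ∈ Algebra.adjoin K (Set.range fun x : t => (x : E)), ∃ p : A[X],
      algebraMap A[X] E p = a := by
    intro a ha
    induction ha using Algebra.adjoin_induction with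
    | mem x hx =>
      obtain ⟨y, rfl⟩ := hx
      by_cases hy : (y : E) = u
      · exact ⟨X, by rw [hmap, aeval_X]; exact hy.symm⟩
      · refine ⟨C ⟨(y : E), Algebra.subset_adjoin ⟨y, ?_, rfl⟩⟩, ?_⟩
        · rw [hs]; exact hy
        · rw [hmap, aeval_C]; rfl
    | algebraMap r => exact ⟨C (algebraMap K A r), by rw [hmap, aeval_C]; rfl⟩
    | add x y _ _ hx hy =>
      obtain ⟨p, hp⟩ := hx
      obtain ⟨q, hq⟩ := hy
      exact ⟨p + q, by rw [map_add, hp, hq]⟩
    | mul x y _ _ hx hy =>
      obtain ⟨p, hp⟩ := hx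
      obtain ⟨q, hq⟩ := hy
      exact ⟨p * q, by rw [map_mul, hp, hq]⟩
  have hAX : Algebra.IsAlgebraic A[X] E := by
    have h2 := hb.isAlgebraic
    refine ⟨fun g => isAlg_lift (A := Algebra.adjoin K (Set.range fun x : t => (x : E))) ?_ ?_
      (h2.isAlgebraic g)⟩
    · exact Subtype.val_injective
    · rintro ⟨a, ha⟩
      exact hle a ha
  obtain ⟨δ, hδ⟩ := exists_der (A := A) (E := E)
  refine ⟨δ.restrictScalars ℤ, ?_⟩
  have h2 := hδ X
  rw [hmap, aeval_X, derivative_X, map_one] at h2
  exact h2

end Pool.Agent.Zk25.AX
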