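import Pool.Agent.Zk25.AX.Ax

/-!
# The theorem of Ax for arbitrary fields
-/

set_option autoImplicit false

namespace Pool.Agent.Zk25.AX

/-- if any `n` of the vectors are dependent then their span has dimension less than `n` -/
theorem finrank_lt {C V : Type*} [Field C] [AddCommGroup V] [Module C V] {ι : Type*} [Finite ι]
    (v : ι → V) (n : ℕ)
    (H : ∀ I : Fin n → ι, Function.Injective I → ¬ LinearIndependent C (v ∘ I)) :
    Module.finrank C (Submodule.span C (Set.range v)) < n := by
  classical
  by_contra hcon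
  rw [not_lt] at hcon
  obtain ⟨b, hb1, hb2, hb3⟩ := exists_linearIndependent C (Set.range v)
  have hbfin : b.Finite := (Set.finite_range v).subset hb1
  have : Fintype b := hbfin.fintype
  have h1 : Module.finrank C (Submodule.span C b) = Fintype.card b := by
    have h2 := finrank_span_eq_card hb3
    rw [Subtype.range_coe] at h2
    exact h2
  rw [hb2] at h1
  have h2 : n ≤ Fintype.card b := by omega
  obtain ⟨f⟩ : Nonempty (Fin n ↪ b) := by
    rw [Function.Embedding.nonempty_iff_card_le, Fintype.card_fin]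
    exact h2
  have h3 : ∀ k : Fin n, ∃ i, v i = (f k : V) := fun k => hb1 (f k).2
  choose I hI using h3
  refine H I ?_ ?_
  · intro k k' hk
    apply f.injective
    apply Subtype.ext
    rw [← hI, ← hI, hk]
  · have h4 : v ∘ I = (fun x : b => (x : V)) ∘ f := by
      funext k
      exact hI k
    rw [h4]
    exact hb3.comp f f.injective

/-- if any `n` of the vectors are dependent then there are many relations -/
theorem relations {C V : Type*} [Field C] [AddCommGroup V] [Module C V] {ι : Type*} [Fintype ι]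
    (v : ι → V) (n r : ℕ) (hcard : n + r ≤ Fintype.card ι)
    (H : ∀ I : Fin n → ι, Function.Injective I → ¬ LinearIndependent C (v ∘ I)) :
    ∃ c : Fin (r + 1) → ι → C, LinearIndependent C c ∧ ∀ k, ∑ i, c k i • v i = 0 := by
  classical
  obtain ⟨L, hL⟩ : ∃ L : (ι → C) →ₗ[C] V, ∀ a, L a = ∑ i, a i • v i :=
    ⟨Fintype.linearCombination C v, fun a => Fintype.linearCombination_apply C v a⟩
  have hrange : LinearMap.range L = Submodule.span C (Set.range v) := by
    ext x
    rw [LinearMap.mem_range, Submodule.mem_span_range_iff_exists_fun]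
    constructor
    · rintro ⟨a, ha⟩
      exact ⟨a, by rw [← hL, ha]⟩
    · rintro ⟨a, ha⟩
      exact ⟨a, by rw [hL, ha]⟩
  have hn : Module.finrank C (LinearMap.range L) < n := by
    rw [hrange]
    exact finrank_lt v n H
  have hk : r + 1 ≤ Module.finrank C (LinearMap.ker L) := by
    have h1 := L.finrank_range_add_finrank_ker
    rw [Module.finrank_fintype_fun_eq_card] at h1
    omega
  obtain ⟨f, hf⟩ := exists_linearIndependent_of_le_finrank hk
  refine ⟨fun k => (f k : ι → C), ?_, fun k => ?_⟩
  · exact hf.map' (LinearMap.ker L).subtype (Submodule.ker_subtype _)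
  · rw [← hL]
    exact (f k).2

theorem ax_closed {E : Type*} [Field E] [CharZero E] [IsAlgClosed E] (D : Derivation ℤ E E)
    {ι : Type*} [Fintype ι] (z : ι → E) (hz : ∀ i, z i ≠ 0) {n r : ℕ} (τ : Fin r → E)
    (hτ : ∀ i, IsAlgebraic (IntermediateField.adjoin ℚ (Set.range τ)) (z i))
    (H : ∀ I : Fin n → ι, Function.Injective I → ∃ a : Fin n → E, a ≠ 0 ∧ (∀ k, D (a k) = 0) ∧
      ∑ k, a k * (D (z (I k)) / z (I k)) = 0) (hcard : n + r ≤ Fintype.card ι) :
    ∃ χ : ι → ℤ, χ ≠ 0 ∧ ∑ i, (χ i : E) * (D (z i) / z i) = 0 := by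
  obtain ⟨c, hc, hrel⟩ := relations (C := cst D) (fun i => D (z i) / z i) n r hcard (by
    intro I hI hli
    obtain ⟨a, ha0, ha, hs⟩ := H I hI
    apply ha0
    have h1 := Fintype.linearIndependent_iff.1 hli (fun k => ⟨a k, ha k⟩) hs
    funext k
    exact congrArg Subtype.val (h1 k))
  exact wax D z hz τ hτ c hc hrel

/-- **Ax** -/
theorem ax {F : Type*} [Field F] [CharZero F] (D : Derivation ℤ F F)
    {ι : Type*} [Fintype ι] (z : ι → F) (hz : ∀ i, z i ≠ 0) {n r : ℕ} (τ : Fin r → F)
    (hτ : ∀ i, IsAlgebraic (IntermediateField.adjoin ℚ (Set.range τ)) (z i))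
    (H : ∀ I : Fin n → ι, Function.Injective I → ∃ a : Fin n → F, a ≠ 0 ∧ (∀ k, D (a k) = 0) ∧
      ∑ k, a k * (D (z (I k)) / z (I k)) = 0) (hcard : n + r ≤ Fintype.card ι) :
    ∃ χ : ι → ℤ, χ ≠ 0 ∧ ∑ i, (χ i : F) * (D (z i) / z i) = 0 := by
  obtain ⟨D', hD'⟩ := extend_alg (E := AlgebraicClosure F) D
  have hc : CharZero (AlgebraicClosure F) :=
    charZero_of_injective_algebraMap (algebraMap F (AlgebraicClosure F)).injective
  have hinj := (algebraMap F (AlgebraicClosure F)).injective
  obtain ⟨χ, h0, h1⟩ := ax_closed (n := n) D' (fun i => algebraMap F (AlgebraicClosure F) (z i))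
    (fun i => (map_ne_zero _).2 (hz i)) (fun j => algebraMap F (AlgebraicClosure F) (τ j)) (by
      intro i
      obtain ⟨Φ, hΦ⟩ : ∃ Φ : F →ₐ[ℚ] AlgebraicClosure F, ∀ x, Φ x = algebraMap F _ x :=
        ⟨IsScalarTower.toAlgHom ℚ F (AlgebraicClosure F), fun _ => rfl⟩
      have e1 : (IntermediateField.adjoin ℚ (Set.range τ)).map Φ = IntermediateField.adjoin ℚ
          (Set.range fun j => algebraMap F (AlgebraicClosure F) (τ j)) := by
        rw [IntermediateField.adjoin_map, ← Set.range_comp]
        congr 2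
        funext j
        exact hΦ _
      let _ : Algebra (IntermediateField.adjoin ℚ (Set.range τ)) (AlgebraicClosure F) :=
        ((algebraMap F (AlgebraicClosure F)).comp
          (algebraMap (IntermediateField.adjoin ℚ (Set.range τ)) F)).toAlgebra
      refine isAlg_lift (A := IntermediateField.adjoin ℚ (Set.range τ)) ?_ ?_ ?_
      · exact RingHom.injective _
      · rintro ⟨a, ha⟩
        refine ⟨⟨Φ a, ?_⟩, hΦ a⟩
        rw [← e1]
        exact ⟨a, ha, rfl⟩
      · obtain ⟨p, hp0, hp⟩ := hτ i
        refine ⟨p, hp0, ?_⟩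
        rw [Polynomial.aeval_def] at hp ⊢
        have h2 : (algebraMap (IntermediateField.adjoin ℚ (Set.range τ)) (AlgebraicClosure F)) =
          (algebraMap F (AlgebraicClosure F)).comp
            (algebraMap (IntermediateField.adjoin ℚ (Set.range τ)) F) := rfl
        rw [h2, ← Polynomial.hom_eval₂, hp, map_zero]) (by
      intro I hI
      obtain ⟨a, ha0, ha, hs⟩ := H I hI
      refine ⟨fun k => algebraMap F _ (a k), ?_, fun k => ?_, ?_⟩
      · intro h0
        apply ha0
        funext k
        exact (map_eq_zero_iff _ hinj).1 (congrFun h0 k)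
      · rw [hD', ha, map_zero]
      · have e2 := congrArg (algebraMap F (AlgebraicClosure F)) hs
        rw [map_zero, map_sum] at e2
        rw [← e2]
        refine Finset.sum_congr rfl fun k _ => ?_
        rw [map_mul, map_div₀, hD']) hcard
  refine ⟨χ, h0, ?_⟩
  apply hinj
  rw [map_zero, map_sum, ← h1]
  refine Finset.sum_congr rfl fun i _ => ?_
  rw [map_mul, map_div₀, hD', map_intCast]

end Pool.Agent.Zk25.AX
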