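import Mathlib

/-!
# Norms and logarithmic derivatives
-/

set_option autoImplicit false

namespace Pool.Agent.Zk25.AX

open Polynomial

section LogDer

variable {R E : Type*} [CommRing R] [Field E] [Algebra R E] (D : Derivation R E E)

theorem ld_mul {a b : E} (ha : a ≠ 0) (hb : b ≠ 0) : D (a * b) / (a * b) = D a / a + D b / b := by
  rw [D.leibniz, smul_eq_mul, smul_eq_mul]
  field_simp
  ring

theorem ld_prod {ι : Type*} (s : Finset ι) (f : ι → E) (hf : ∀ i ∈ s, f i ≠ 0) :
    D (∏ i ∈ s, f i) / ∏ i ∈ s, f i = ∑ i ∈ s, D (f i) / f i := by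
  classical
  induction s using Finset.induction_on with
  | empty => simp
  | insert a s ha ih =>
    rw [Finset.prod_insert ha, Finset.sum_insert ha, ld_mul D (hf a (Finset.mem_insert_self a s))
      (Finset.prod_ne_zero_iff.2 fun i hi => hf i (Finset.mem_insert_of_mem hi)),
      ih fun i hi => hf i (Finset.mem_insert_of_mem hi)]

theorem ld_pow {a : E} (ha : a ≠ 0) (n : ℕ) : D (a ^ n) / a ^ n = n * (D a / a) := by
  have := ld_prod D (Finset.range n) (fun _ => a) (fun _ _ => ha)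
  simpa using this

theorem ld_inv {a : E} (ha : a ≠ 0) : D (a⁻¹) / a⁻¹ = - (D a / a) := by
  have h := ld_mul D ha (inv_ne_zero ha)
  rw [mul_inv_cancel₀ ha, D.map_one_eq_zero, zero_div] at h
  linear_combination -h

theorem ld_zpow {a : E} (ha : a ≠ 0) (n : ℤ) : D (a ^ n) / a ^ n = n * (D a / a) := by
  obtain ⟨n, rfl | rfl⟩ := n.eq_nat_or_neg
  · rw [zpow_natCast, ld_pow D ha]
    simp
  · rw [zpow_neg, zpow_natCast, ld_inv D (pow_ne_zero _ ha), ld_pow D ha]
    simp

theorem ld_div {a b : E} (ha : a ≠ 0) (hb : b ≠ 0) : D (a / b) / (a / b) = D a / a - D b / b := by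
  rw [div_eq_mul_inv a b, ld_mul D ha (inv_ne_zero hb), ld_inv D hb]
  ring

end LogDer

theorem norm_step {Q E R : Type*} [Field Q] [Field E] [CommRing R] [Algebra R E] [Algebra Q E]
    [CharZero E] [IsAlgClosed E] [Algebra.IsAlgebraic Q E] (δ : Derivation R E E) {ι : Type*}
    [Finite ι] (z : ι → E) (hz : ∀ i, z i ≠ 0) :
    ∃ (n : ι → Q) (d : ℕ) (T : Finset (E ≃ₐ[Q] E)), 0 < d ∧ (∀ i, n i ≠ 0) ∧
      (∀ i, δ (algebraMap Q E (n i)) / algebraMap Q E (n i) = ∑ σ ∈ T, δ (σ (z i)) / σ (z i)) ∧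
      ∀ [Fintype ι] (χ : ι → ℤ) (w : Q), ∏ i, z i ^ χ i = algebraMap Q E w →
        ∏ i, n i ^ χ i = w ^ d := by
  classical
  obtain ⟨F, hF⟩ : ∃ F : IntermediateField Q E, F = IntermediateField.adjoin Q (Set.range z) :=
    ⟨_, rfl⟩
  have hfin : FiniteDimensional Q F := by
    rw [hF]
    exact IntermediateField.finiteDimensional_adjoin fun x _ =>
      (Algebra.IsAlgebraic.isAlgebraic x).isIntegral
  have hzF : ∀ i, z i ∈ F := fun i => by
    rw [hF]; exact IntermediateField.subset_adjoin _ _ ⟨i, rfl⟩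
  have hQ : CharZero Q := (algebraMap Q E).charZero
  have hac : IsAlgClosure Q E := ⟨inferInstance, inferInstance⟩
  have hnor : Normal Q E := IsAlgClosure.normal Q E
  have h1 : ∀ τ : F →ₐ[Q] E, ∃ σ : E ≃ₐ[Q] E, ∀ x : F, σ (x : E) = τ x := by
    intro τ
    refine ⟨AlgEquiv.ofBijective (τ.liftNormal E)
      (Algebra.IsAlgebraic.algHom_bijective _), fun x => ?_⟩
    exact τ.liftNormal_commutes E x
  choose ext hext using h1
  have hinj : Function.Injective ext := by
    intro τ τ' h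
    ext x
    rw [← hext, ← hext, h]
  obtain ⟨zF, hzF'⟩ : ∃ zF : ι → F, ∀ i, ((zF i : F) : E) = z i := ⟨fun i => ⟨z i, hzF i⟩, fun _ => rfl⟩
  have hzF0 : ∀ i, zF i ≠ 0 := by
    intro i h
    apply hz i
    rw [← hzF', h]
    rfl
  refine ⟨fun i => Algebra.norm Q (zF i), Module.finrank Q F, Finset.univ.image ext,
    Module.finrank_pos, fun i => Algebra.norm_ne_zero_iff.2 (hzF0 i), fun i => ?_, ?_⟩
  · rw [Algebra.norm_eq_prod_embeddings Q E (zF i), ld_prod δ _ _ fun τ _ => ?_,
      Finset.sum_image fun τ _ τ' _ h => hinj h]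
    · refine Finset.sum_congr rfl fun τ _ => ?_
      rw [← hzF', hext]
    · exact (map_ne_zero τ).2 (hzF0 i)
  · intro _ χ w hw
    have h2 : ∏ i, zF i ^ χ i = algebraMap Q F w := by
      apply Subtype.ext
      have h3 : ((∏ i, zF i ^ χ i : F) : E) = ∏ i, z i ^ χ i := by
        have h4 : ((∏ i, zF i ^ χ i : F) : E) = F.val (∏ i, zF i ^ χ i) := rfl
        rw [h4, map_prod]
        refine Finset.prod_congr rfl fun i _ => ?_
        rw [map_zpow₀, ← hzF']
        rfl
      rw [h3, hw]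
      rfl
    have h3 := congrArg (Algebra.norm Q) h2
    rw [Algebra.norm_algebraMap, map_prod] at h3
    rw [← h3]
    refine Finset.prod_congr rfl fun i _ => (map_zpow' _ (fun x => ?_) _ _).symm
    by_cases hx : x = 0
    · rw [hx, inv_zero, Algebra.norm_zero, inv_zero]
    · refine eq_inv_of_mul_eq_one_left ?_
      rw [← map_mul, inv_mul_cancel₀ hx, map_one]

end Pool.Agent.Zk25.AX
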