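import Mathlib

/-!
# The residue at zero of a logarithmic derivative
-/

set_option autoImplicit false

namespace Pool.Agent.Zk25.AX

open Polynomial

/-- a linear relation between logarithmic derivatives of polynomials gives a relation between their
orders at zero -/
theorem residue {A : Type*} [CommRing A] [IsDomain A] [CharZero A] {ι : Type*} [DecidableEq ι]
    (s : Finset ι) (g : ι → A[X]) (hg : ∀ i ∈ s, g i ≠ 0) (γ : ι → A)
    (h : ∑ i ∈ s, C (γ i) * (derivative (g i) * ∏ j ∈ s.erase i, g j) = 0) :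
    ∑ i ∈ s, γ i * ((g i).natTrailingDegree : A) = 0 := by
  classical
  have h1 : ∀ i : ι, ∃ f : A[X], i ∈ s → (g i = X ^ (g i).natTrailingDegree * f ∧ f.coeff 0 ≠ 0) := by
    intro i
    by_cases hi : i ∈ s
    · obtain ⟨f, hf⟩ : X ^ (g i).natTrailingDegree ∣ g i := by
        rw [X_pow_dvd_iff]
        exact fun d hd => coeff_eq_zero_of_lt_natTrailingDegree hd
      refine ⟨f, fun _ => ⟨hf, ?_⟩⟩
      have h2 : (g i).coeff (g i).natTrailingDegree ≠ 0 :=
        trailingCoeff_nonzero_iff_nonzero.2 (hg i hi)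
      obtain ⟨k, hk⟩ : ∃ k, k = (g i).natTrailingDegree := ⟨_, rfl⟩
      rw [← hk] at hf h2
      rw [hf] at h2
      have h3 := coeff_X_pow_mul f k 0
      rw [zero_add] at h3
      rwa [h3] at h2
    · exact ⟨0, fun h => absurd h hi⟩
  choose f hf using h1
  obtain ⟨m, hm⟩ : ∃ m : ι → ℕ, m = fun i => (g i).natTrailingDegree := ⟨_, rfl⟩
  have hf1 : ∀ i ∈ s, g i = X ^ m i * f i := fun i hi => by rw [hm]; exact (hf i hi).1
  have hf2 : ∀ i ∈ s, (f i).coeff 0 ≠ 0 := fun i hi => (hf i hi).2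
  show ∑ i ∈ s, γ i * ((g i).natTrailingDegree : A) = 0
  have hm' : ∀ i, (g i).natTrailingDegree = m i := fun i => by rw [hm]
  -- X * g' = m g + X * X ^ m * f'
  have h2 : ∀ i ∈ s, X * derivative (g i) = C (m i : A) * g i + X * (X ^ m i * derivative (f i)) := by
    intro i hi
    conv_lhs => rw [hf1 i hi]
    rw [derivative_mul]
    conv_rhs => rw [hf1 i hi]
    rcases Nat.eq_zero_or_pos (m i) with h0 | h0
    · rw [h0]; simp
    · obtain ⟨k, hk⟩ : ∃ k, m i = k + 1 := ⟨m i - 1, by omega⟩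
      rw [hk, derivative_X_pow]
      simp only [Nat.cast_add, Nat.cast_one, Nat.add_sub_cancel]
      rw [pow_succ]
      ring
  obtain ⟨M, hM⟩ : ∃ M : ℕ, M = ∑ i ∈ s, m i := ⟨_, rfl⟩
  obtain ⟨H, hH⟩ : ∃ H : A[X], H = ∏ i ∈ s, f i := ⟨_, rfl⟩
  have h3 : ∏ i ∈ s, g i = X ^ M * H := by
    rw [hM, hH, ← Finset.prod_pow_eq_pow_sum, ← Finset.prod_mul_distrib]
    exact Finset.prod_congr rfl hf1
  have h4 : ∀ i ∈ s, X ^ m i * ∏ j ∈ s.erase i, g j = X ^ M * ∏ j ∈ s.erase i, f j := by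
    intro i hi
    have e1 : ∏ j ∈ s.erase i, g j = X ^ (∑ j ∈ s.erase i, m j) * ∏ j ∈ s.erase i, f j := by
      rw [← Finset.prod_pow_eq_pow_sum, ← Finset.prod_mul_distrib]
      exact Finset.prod_congr rfl fun j hj => hf1 j (Finset.mem_of_mem_erase hj)
    rw [e1, hM, ← Finset.add_sum_erase s m hi, pow_add]
    ring
  have h5 : X ^ M * (C (∑ i ∈ s, γ i * (m i : A)) * H +
      X * ∑ i ∈ s, C (γ i) * (derivative (f i) * ∏ j ∈ s.erase i, f j)) = 0 := by
    have e1 : X * ∑ i ∈ s, C (γ i) * (derivative (g i) * ∏ j ∈ s.erase i, g j) = 0 := by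
      rw [h, mul_zero]
    rw [Finset.mul_sum] at e1
    rw [← e1, mul_add, Finset.mul_sum, Finset.mul_sum, map_sum, Finset.sum_mul, Finset.mul_sum,
      ← Finset.sum_add_distrib]
    refine Finset.sum_congr rfl fun i hi => ?_
    have e2 : X * (C (γ i) * (derivative (g i) * ∏ j ∈ s.erase i, g j)) =
        C (γ i) * ((X * derivative (g i)) * ∏ j ∈ s.erase i, g j) := by ring
    rw [e2, h2 i hi]
    have e3 : g i * ∏ j ∈ s.erase i, g j = X ^ M * H := by
      rw [Finset.mul_prod_erase s g hi, h3]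
    have e4 : C (γ i) * ((C (m i : A) * g i + X * (X ^ m i * derivative (f i))) *
        ∏ j ∈ s.erase i, g j) = C (γ i) * C (m i : A) * (g i * ∏ j ∈ s.erase i, g j) +
        C (γ i) * (X * derivative (f i) * (X ^ m i * ∏ j ∈ s.erase i, g j)) := by ring
    rw [e4, e3, h4 i hi, ← C_mul]
    ring
  have h6 := (mul_eq_zero.1 h5).resolve_left (pow_ne_zero _ X_ne_zero)
  have h7 := congrArg (fun p : A[X] => p.coeff 0) h6
  simp only [coeff_add, coeff_zero, mul_coeff_zero, coeff_C_zero, coeff_X_zero, zero_mul,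
    add_zero] at h7
  have h8 : H.coeff 0 ≠ 0 := by
    rw [hH, coeff_zero_eq_eval_zero, eval_prod]
    refine Finset.prod_ne_zero_iff.2 fun i hi => ?_
    rw [← coeff_zero_eq_eval_zero]
    exact hf2 i hi
  have h9 := (mul_eq_zero.1 h7).resolve_right h8
  rw [← h9]
  exact Finset.sum_congr rfl fun i _ => by rw [hm']

end Pool.Agent.Zk25.AX
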