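import Pool.Agent.Zk25.AX.Der
import Pool.Agent.Zk25.AX.Pol
import Pool.Agent.Zk25.AX.Nrm

/-!
# Linear relations between logarithmic differentials come from multiplicative relations
-/

set_option autoImplicit false

namespace Pool.Agent.Zk25.AX

open Polynomial

theorem isAlg_lift {A B E : Type*} [CommRing A] [CommRing B] [CommRing E] [Algebra A E] [Algebra B E]
    (hA : Function.Injective (algebraMap A E))
    (h : ∀ a : A, ∃ b : B, algebraMap B E b = algebraMap A E a) {g : E} (hg : IsAlgebraic A g) :
    IsAlgebraic B g := by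
  obtain ⟨p, hp0, hp⟩ := hg
  have h1 : p.map (algebraMap A E) ∈ Polynomial.lifts (algebraMap B E) := by
    rw [Polynomial.lifts_iff_coeff_lifts]
    intro n
    rw [Polynomial.coeff_map]
    obtain ⟨b, hb⟩ := h (p.coeff n)
    exact ⟨b, hb⟩
  rw [Polynomial.mem_lifts] at h1
  obtain ⟨q, hq⟩ := h1
  refine ⟨q, ?_, ?_⟩
  · rintro rfl
    rw [Polynomial.map_zero] at hq
    exact hp0 ((Polynomial.map_eq_zero_iff hA).1 hq.symm)
  · rw [Polynomial.aeval_def, ← Polynomial.eval_map, hq, Polynomial.eval_map, ← Polynomial.aeval_def]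
    exact hp

section

variable {A E : Type*} [CommRing A] [IsDomain A] [Field E] [Algebra A E] [CharZero E]
    [Algebra A[X] E] [IsScalarTower A A[X] E] [FaithfulSMul A[X] E]

theorem residue_frac [CharZero A] (δ : Derivation A E E)
    (hδ : ∀ p : A[X], δ (algebraMap A[X] E p) = algebraMap A[X] E (derivative p))
    {J : Type*} [Fintype J] (p q : J → A[X]) (hp : ∀ j, p j ≠ 0) (hq : ∀ j, q j ≠ 0) (γ : J → A)
    (h : ∑ j, algebraMap A E (γ j) * (δ (algebraMap A[X] E (p j)) / algebraMap A[X] E (p j) -
      δ (algebraMap A[X] E (q j)) / algebraMap A[X] E (q j)) = 0) :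
    ∑ j, γ j * (((p j).natTrailingDegree : A) - ((q j).natTrailingDegree : A)) = 0 := by
  classical
  have hinj : Function.Injective (algebraMap A[X] E) := FaithfulSMul.algebraMap_injective _ _
  have h1 := residue (Finset.univ : Finset (J ⊕ J)) (Sum.elim p q) (by
    rintro (j | j) _
    · exact hp j
    · exact hq j) (Sum.elim γ (fun j => - γ j)) (by
    apply hinj
    rw [map_zero, map_sum]
    obtain ⟨G, hG⟩ : ∃ G : E, G = ∏ k : J ⊕ J, algebraMap A[X] E (Sum.elim p q k) := ⟨_, rfl⟩
    have h2 : ∀ k : J ⊕ J, algebraMap A[X] E (C (Sum.elim γ (fun j => - γ j) k) *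
        (derivative (Sum.elim p q k) * ∏ j ∈ Finset.univ.erase k, Sum.elim p q j)) =
        G * (algebraMap A E (Sum.elim γ (fun j => - γ j) k) *
          (δ (algebraMap A[X] E (Sum.elim p q k)) / algebraMap A[X] E (Sum.elim p q k))) := by
      intro k
      have hk : algebraMap A[X] E (Sum.elim p q k) ≠ 0 := by
        intro h0
        have := (map_eq_zero_iff _ hinj).1 h0
        rcases k with j | j
        · exact hp j this
        · exact hq j this
      rw [hG, ← Finset.mul_prod_erase Finset.univ _ (Finset.mem_univ k), hδ, map_mul, map_mul,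
        map_prod]
      have h3 : algebraMap A[X] E (C (Sum.elim γ (fun j => - γ j) k)) =
          algebraMap A E (Sum.elim γ (fun j => - γ j) k) := by
        rw [IsScalarTower.algebraMap_apply A A[X] E]
        rfl
      rw [h3]
      field_simp
    rw [Finset.sum_congr rfl fun k _ => h2 k, ← Finset.mul_sum, Fintype.sum_sum_type]
    simp only [Sum.elim_inl, Sum.elim_inr, map_neg, neg_mul]
    rw [← Finset.sum_add_distrib]
    have h4 : ∑ j, (algebraMap A E (γ j) * (δ (algebraMap A[X] E (p j)) / algebraMap A[X] E (p j)) +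
        -(algebraMap A E (γ j) * (δ (algebraMap A[X] E (q j)) / algebraMap A[X] E (q j)))) = 0 := by
      rw [← h]
      refine Finset.sum_congr rfl fun j _ => by ring
    rw [h4, mul_zero])
  rw [Fintype.sum_sum_type] at h1
  simp only [Sum.elim_inl, Sum.elim_inr, neg_mul] at h1
  rw [← Finset.sum_add_distrib] at h1
  rw [← h1]
  exact Finset.sum_congr rfl fun j _ => by ring

end

theorem rational_relation {K E : Type*} [Field K] [Field E] [Algebra K E] [CharZero E]
    [IsAlgClosed E] {ι : Type*} [Fintype ι] (z : ι → E) (hz : ∀ i, z i ≠ 0) (β : ι → K)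
    (h : ∀ D : Derivation K E E, ∑ i, algebraMap K E (β i) * (D (z i) / z i) = 0)
    (ℓ : K →+ ℚ) (χ : ι → ℤ) (M : ℚ) (hM : ∀ i, (χ i : ℚ) = M * ℓ (β i)) :
    IsAlgebraic K (∏ i, z i ^ χ i) := by
  classical
  by_contra hu0
  obtain ⟨u, hu'⟩ : ∃ u, u = ∏ i, z i ^ χ i := ⟨_, rfl⟩
  rw [← hu'] at hu0
  have hu : Transcendental K u := hu0
  have h1 : AlgebraicIndepOn K id ({u} : Set E) := by
    have : AlgebraicIndependent K (fun i : ({u} : Set E) => (i : E)) := by
      rw [algebraicIndependent_singleton_iff (⟨u, rfl⟩ : ({u} : Set E))]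
      exact hu
    exact this
  obtain ⟨t, ht, hb⟩ := exists_isTranscendenceBasis_superset h1
  have hut : u ∈ t := ht rfl
  obtain ⟨s, hs⟩ : ∃ s : Set t, s = {x : t | (x : E) ≠ u} := ⟨_, rfl⟩
  let A : Subalgebra K E := Algebra.adjoin K ((fun x : t => (x : E)) '' s)
  have hA : Transcendental A u := by
    have := hb.1.transcendental_adjoin (s := s) (i := ⟨u, hut⟩) (by rw [hs]; simp)
    exact this
  let _ : Algebra A[X] E := (aeval u : A[X] →ₐ[A] E).toRingHom.toAlgebra
  have hmap : ∀ p : A[X], algebraMap A[X] E p = aeval u p := fun p => rfl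
  have : IsScalarTower A A[X] E := IsScalarTower.of_algebraMap_eq fun a => by
    rw [hmap]
    have : algebraMap A A[X] a = C a := rfl
    rw [this, aeval_C]
  have hinj : Function.Injective (algebraMap A[X] E) := transcendental_iff_injective.1 hA
  have : FaithfulSMul A[X] E := (faithfulSMul_iff_algebraMap_injective _ _).2 hinj
  have hle : ∀ a ∈ Algebra.adjoin K (Set.range fun x : t => (x : E)), ∃ p : A[X],
      algebraMap A[X] E p = a := by
    intro a ha
    induction ha using Algebra.adjoin_induction with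
    | mem x hx =>
      obtain ⟨y, rfl⟩ := hx
      by_cases hy : (y : E) = u
      · exact ⟨X, by rw [hmap, aeval_X]; exact hy.symm⟩
      · refine ⟨C ⟨(y : E), Algebra.subset_adjoin ⟨y, ?_, rfl⟩⟩, ?_⟩
        · rw [hs]; exact hy
        · rw [hmap, aeval_C]; rfl
    | algebraMap r => exact ⟨C (algebraMap K A r), by rw [hmap, aeval_C]; rfl⟩
    | add x y _ _ hx hy =>
      obtain ⟨p, hp⟩ := hx
      obtain ⟨q, hq⟩ := hy
      exact ⟨p + q, by rw [map_add, hp, hq]⟩
    | mul x y _ _ hx hy =>
      obtain ⟨p, hp⟩ := hx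
      obtain ⟨q, hq⟩ := hy
      exact ⟨p * q, by rw [map_mul, hp, hq]⟩
  have hAX : Algebra.IsAlgebraic A[X] E := by
    have h2 := hb.isAlgebraic
    refine ⟨fun g => isAlg_lift (A := Algebra.adjoin K (Set.range fun x : t => (x : E))) ?_ ?_
      (h2.isAlgebraic g)⟩
    · exact Subtype.val_injective
    · rintro ⟨a, ha⟩
      exact hle a ha
  obtain ⟨δ, hδ⟩ := exists_der (A := A) (E := E)
  let _ : Algebra (FractionRing A[X]) E := FractionRing.liftAlgebra A[X] E
  have : IsScalarTower A[X] (FractionRing A[X]) E := FractionRing.isScalarTower_liftAlgebra _ _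
  have : Algebra.IsAlgebraic (FractionRing A[X]) E :=
    Algebra.IsAlgebraic.extendScalars (R := A[X]) (IsFractionRing.injective A[X] (FractionRing A[X]))
  have hKQ : ∀ k : K, algebraMap K E k = algebraMap (FractionRing A[X]) E
      (algebraMap A[X] (FractionRing A[X]) (C (algebraMap K A k))) := by
    intro k
    rw [← IsScalarTower.algebraMap_apply A[X] (FractionRing A[X]) E, hmap, aeval_C]
    rfl
  have hσ : ∀ (σ : E ≃ₐ[FractionRing A[X]] E) (k : K), σ (algebraMap K E k) = algebraMap K E k := by
    intro σ k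
    rw [hKQ, AlgEquiv.commutes]
  have hσD : ∀ σ : E ≃ₐ[FractionRing A[X]] E,
      ∑ i, algebraMap K E (β i) * (δ (σ (z i)) / σ (z i)) = 0 := by
    intro σ
    have hsm : ∀ (k : K) (x : E), σ.symm (δ (σ (k • x))) = k • σ.symm (δ (σ x)) := by
      intro k x
      rw [Algebra.smul_def, Algebra.smul_def, map_mul, hσ, δ.leibniz,
        smul_eq_mul, smul_eq_mul]
      have h0 : δ (algebraMap K E k) = 0 := by
        have h3 : algebraMap K E k = algebraMap A E (algebraMap K A k) := rfl
        rw [h3, δ.map_algebraMap]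
      rw [h0, mul_zero, add_zero, map_mul]
      congr 1
      rw [AlgEquiv.symm_apply_eq, hσ]
    obtain ⟨D, hD⟩ : ∃ D : Derivation K E E, ∀ x, D x = σ.symm (δ (σ x)) := by
      refine ⟨Derivation.mk' (LinearMap.mk (AddHom.mk (fun x => σ.symm (δ (σ x))) ?_) hsm) ?_,
        fun x => rfl⟩
      · intro x y
        simp only [map_add]
      · intro x y
        show σ.symm (δ (σ (x * y))) = x • σ.symm (δ (σ y)) + y • σ.symm (δ (σ x))
        rw [map_mul, δ.leibniz, smul_eq_mul, smul_eq_mul, smul_eq_mul, smul_eq_mul, map_add,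
          map_mul, map_mul, AlgEquiv.symm_apply_apply, AlgEquiv.symm_apply_apply]
    have h2 := congrArg σ (h D)
    rw [map_zero, map_sum] at h2
    rw [← h2]
    refine Finset.sum_congr rfl fun i _ => ?_
    rw [map_mul, hσ, map_div₀, hD, AlgEquiv.apply_symm_apply]
  obtain ⟨n, d, T, hd, hn0, hn, hnχ⟩ := norm_step (Q := FractionRing A[X]) δ z hz
  have hrel : ∑ i, algebraMap K E (β i) * (δ (algebraMap (FractionRing A[X]) E (n i)) /
      algebraMap (FractionRing A[X]) E (n i)) = 0 := by
    have e1 : ∀ i, algebraMap K E (β i) * (δ (algebraMap (FractionRing A[X]) E (n i)) /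
      algebraMap (FractionRing A[X]) E (n i)) =
        ∑ σ ∈ T, algebraMap K E (β i) * (δ (σ (z i)) / σ (z i)) := by
      intro i
      rw [hn, Finset.mul_sum]
    rw [Finset.sum_congr rfl fun i _ => e1 i, Finset.sum_comm]
    exact Finset.sum_eq_zero fun σ _ => hσD σ
  have hfr : ∀ i, ∃ p q : A[X], p ≠ 0 ∧ q ≠ 0 ∧ algebraMap (FractionRing A[X]) E (n i) =
      algebraMap A[X] E p / algebraMap A[X] E q := by
    intro i
    obtain ⟨p, q, hq, hpq⟩ := IsFractionRing.div_surjective (A := A[X]) (n i)
    have hq0 : q ≠ 0 := nonZeroDivisors.ne_zero hq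
    refine ⟨p, q, ?_, hq0, ?_⟩
    · rintro rfl
      rw [map_zero, zero_div] at hpq
      exact hn0 i hpq.symm
    · rw [← hpq, map_div₀, ← IsScalarTower.algebraMap_apply, ← IsScalarTower.algebraMap_apply]
  choose p q hp hq hpq using hfr
  have hne : ∀ {f : A[X]}, f ≠ 0 → algebraMap A[X] E f ≠ 0 := fun hf h0 =>
    hf ((map_eq_zero_iff _ hinj).1 h0)
  have hA0 : CharZero A := by
    exact (algebraMap A E).charZero
  obtain ⟨v, hv⟩ : ∃ v : ι → ℤ, v = fun i => ((p i).natTrailingDegree : ℤ) -
    ((q i).natTrailingDegree : ℤ) := ⟨_, rfl⟩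
  have hmul : ∀ i, δ (algebraMap (FractionRing A[X]) E (n i)) /
      algebraMap (FractionRing A[X]) E (n i) =
      δ (algebraMap A[X] E (p i)) / algebraMap A[X] E (p i) -
      δ (algebraMap A[X] E (q i)) / algebraMap A[X] E (q i) := by
    intro i
    rw [hpq, ld_div δ (hne (hp i)) (hne (hq i))]
  -- the first relation
  have r1 : ∑ i, β i * (v i : K) = 0 := by
    have e1 := residue_frac δ hδ p q hp hq (fun i => algebraMap K A (β i)) (by
      rw [← hrel]
      refine Finset.sum_congr rfl fun i _ => ?_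
      rw [hmul, ← IsScalarTower.algebraMap_apply])
    apply (algebraMap K A).injective
    rw [map_zero, map_sum, ← e1]
    refine Finset.sum_congr rfl fun i _ => ?_
    rw [map_mul, map_intCast, hv]
    push_cast
    ring
  -- the second relation
  have r2 : ∑ i, χ i * v i = d := by
    have e0 := hnχ χ (algebraMap A[X] (FractionRing A[X]) X) (by
      rw [← hu', ← IsScalarTower.algebraMap_apply, hmap, aeval_X])
    have e1 := congrArg (algebraMap (FractionRing A[X]) E) e0
    rw [map_prod, map_pow, ← IsScalarTower.algebraMap_apply] at e1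
    have e2 : δ (∏ i, algebraMap (FractionRing A[X]) E (n i ^ χ i)) /
        ∏ i, algebraMap (FractionRing A[X]) E (n i ^ χ i) =
        δ (algebraMap A[X] E X ^ d) / algebraMap A[X] E X ^ d := by rw [e1]
    have hnE : ∀ i, algebraMap (FractionRing A[X]) E (n i) ≠ 0 := fun i =>
      (_root_.map_ne_zero _).2 (hn0 i)
    rw [ld_pow δ (hne X_ne_zero), ld_prod δ _ _ fun i _ => ?_] at e2
    · have e3 : ∀ i, δ (algebraMap (FractionRing A[X]) E (n i ^ χ i)) /
          algebraMap (FractionRing A[X]) E (n i ^ χ i) = (χ i : E) *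
          (δ (algebraMap A[X] E (p i)) / algebraMap A[X] E (p i) -
          δ (algebraMap A[X] E (q i)) / algebraMap A[X] E (q i)) := by
        intro i
        rw [map_zpow₀, ld_zpow δ (hnE i), hmul]
      rw [Finset.sum_congr rfl fun i _ => e3 i] at e2
      have e4 := residue_frac δ hδ (fun j : Option ι => j.elim X p) (fun j : Option ι => j.elim 1 q)
        (by
          rintro (_ | j)
          · exact X_ne_zero
          · exact hp j) (by
          rintro (_ | j)
          · exact one_ne_zero
          · exact hq j) (fun j : Option ι => j.elim (-(d : A)) (fun i => (χ i : A))) (by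
          rw [Fintype.sum_option]
          simp only [Option.elim_none, Option.elim_some, map_neg, map_natCast, map_intCast, map_one,
            δ.map_one_eq_zero, zero_div, sub_zero]
          rw [e2]
          ring)
      rw [Fintype.sum_option] at e4
      simp only [Option.elim_none, Option.elim_some, natTrailingDegree_X, natTrailingDegree_one,
        Nat.cast_one, Nat.cast_zero, sub_zero, mul_one] at e4
      have e5 : ((∑ i, χ i * v i : ℤ) : A) = ((d : ℤ) : A) := by
        rw [hv]
        push_cast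
        linear_combination e4
      exact_mod_cast e5
    · exact (_root_.map_ne_zero _).2 (zpow_ne_zero _ (hn0 i))
  have r3 : ∑ i, (v i : ℚ) * ℓ (β i) = 0 := by
    have e1 := congrArg ℓ r1
    rw [map_zero, map_sum] at e1
    rw [← e1]
    refine Finset.sum_congr rfl fun i _ => ?_
    have e2 : β i * (v i : K) = v i • β i := by rw [zsmul_eq_mul, mul_comm]
    rw [e2, map_zsmul, zsmul_eq_mul]
  have r4 : ((∑ i, χ i * v i : ℤ) : ℚ) = 0 := by
    push_cast
    have e1 : ∑ i, (χ i : ℚ) * (v i : ℚ) = M * ∑ i, (v i : ℚ) * ℓ (β i) := by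
      rw [Finset.mul_sum]
      refine Finset.sum_congr rfl fun i _ => ?_
      rw [hM]
      ring
    rw [e1, r3, mul_zero]
  rw [r2] at r4
  have : (d : ℚ) ≠ 0 := by
    exact_mod_cast hd.ne'
  exact this (by exact_mod_cast r4)

end Pool.Agent.Zk25.AX
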